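import Mathlib

set_option autoImplicit false

namespace Pool.Agent.Results.MP_ca6fba_co.ClientWaiterDisproof

/-- Winning positions for Waiter in the Client-Waiter game on the hypergraph with edge family `E`.
`WaiterWins E C U` means: Waiter can force a win from the position in which Client has claimed
exactly the vertices of `C` and exactly the vertices of `U` are unclaimed.

* `over`: no vertex is unclaimed; Waiter has won iff `C` contains no edge.
* `last`: exactly one vertex `v` is unclaimed; it goes to Client.
* `offer`: Waiter offers two distinct unclaimed vertices `x`, `y`; Client takes one of them and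
  Waiter takes the other, and Waiter must win in both cases. -/
inductive WaiterWins {V : Type} [DecidableEq V] (E : Finset (Finset V)) :
    Finset V → Finset V → Prop
  | over {C : Finset V} (h : ∀ e ∈ E, ¬ e ⊆ C) : WaiterWins E C ∅
  | last {C : Finset V} {v : V} (h : ∀ e ∈ E, ¬ e ⊆ insert v C) : WaiterWins E C {v}
  | offer {C U : Finset V} (x y : V) (hx : x ∈ U) (hy : y ∈ U) (hxy : x ≠ y)
      (h₁ : WaiterWins E (insert x C) ((U.erase x).erase y))
      (h₂ : WaiterWins E (insert y C) ((U.erase x).erase y)) : WaiterWins E C U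

/-- Waiter wins the Client-Waiter game on `(V, E)`: he wins from the position in which no vertex
has been claimed. -/
def WaiterWinsGame {V : Type} [DecidableEq V] [Fintype V] (E : Finset (Finset V)) : Prop :=
  WaiterWins E ∅ Finset.univ

/-- The hypergraph `(V, E)` is 2-colourable: there is a colouring of the vertices with two colours
such that no edge is monochromatic. -/
def TwoColourable {V : Type} (E : Finset (Finset V)) : Prop :=
  ∃ c : V → Bool, ∀ e ∈ E, ∀ b : Bool, ∃ v ∈ e, c v ≠ b

/-- Does `S` meet each of the four pairs `{2,3}, {4,5}, {6,7}, {8,9}`? -/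
def Meets (S : Finset (Fin 10)) : Prop :=
  ((2 : Fin 10) ∈ S ∨ (3 : Fin 10) ∈ S) ∧ ((4 : Fin 10) ∈ S ∨ (5 : Fin 10) ∈ S) ∧
    ((6 : Fin 10) ∈ S ∨ (7 : Fin 10) ∈ S) ∧ ((8 : Fin 10) ∈ S ∨ (9 : Fin 10) ∈ S)

instance : DecidablePred Meets := fun S => by unfold Meets; infer_instance

/-- The sets that Waiter allows Client to end up with. -/
def Good (S : Finset (Fin 10)) : Prop :=
  ((0 : Fin 10) ∈ S ∧ (1 : Fin 10) ∉ S ∧ Meets S) ∨
    ((0 : Fin 10) ∉ S ∧ (1 : Fin 10) ∈ S ∧ ¬ Meets S)

instance : DecidablePred Good := fun S => by unfold Good; infer_instance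

/-- The edges: all 5-subsets that are not allowed. -/
def Edges : Finset (Finset (Fin 10)) :=
  (Finset.univ.powersetCard 5).filter (fun S => ¬ Good S)

theorem mem_Edges {S : Finset (Fin 10)} : S ∈ Edges ↔ S.card = 5 ∧ ¬ Good S := by
  simp [Edges, Finset.mem_powersetCard]

theorem leaf {C : Finset (Fin 10)} (h : C.card = 5) (hg : Good C) : ∀ e ∈ Edges, ¬ e ⊆ C := by
  intro e he hsub
  rw [mem_Edges] at he
  have : e = C := Finset.eq_of_subset_of_card_le hsub (by omega)
  subst this
  exact he.2 hg

theorem leafWin {C U : Finset (Fin 10)} (hU : U = ∅) (h : C.card = 5) (hg : Good C) :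
    WaiterWins Edges C U := by
  subst hU
  exact WaiterWins.over (leaf h hg)

/-- Waiter wins. -/
theorem waiter_wins : WaiterWinsGame Edges := by
  unfold WaiterWinsGame
  refine WaiterWins.offer 0 1 (by decide) (by decide) (by decide) ?_ ?_
  · -- Client took 0: Waiter plays the fixed pairing
    refine WaiterWins.offer 2 3 (by decide) (by decide) (by decide) ?_ ?_ <;>
    refine WaiterWins.offer 4 5 (by decide) (by decide) (by decide) ?_ ?_ <;>
    refine WaiterWins.offer 6 7 (by decide) (by decide) (by decide) ?_ ?_ <;>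
    refine WaiterWins.offer 8 9 (by decide) (by decide) (by decide) ?_ ?_ <;>
    exact leafWin (by decide) (by decide) (by decide)
  · -- Client took 1: Waiter claims one vertex of two pairs, then offers their two partners
    refine WaiterWins.offer 2 4 (by decide) (by decide) (by decide) ?_ ?_
    · -- Waiter has 4
      refine WaiterWins.offer 6 8 (by decide) (by decide) (by decide) ?_ ?_
      · -- Waiter has 4, 8
        refine WaiterWins.offer 5 9 (by decide) (by decide) (by decide) ?_ ?_ <;>
        refine WaiterWins.offer 3 7 (by decide) (by decide) (by decide) ?_ ?_ <;>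
        exact leafWin (by decide) (by decide) (by decide)
      · -- Waiter has 4, 6
        refine WaiterWins.offer 5 7 (by decide) (by decide) (by decide) ?_ ?_ <;>
        refine WaiterWins.offer 3 9 (by decide) (by decide) (by decide) ?_ ?_ <;>
        exact leafWin (by decide) (by decide) (by decide)
    · -- Waiter has 2
      refine WaiterWins.offer 6 8 (by decide) (by decide) (by decide) ?_ ?_
      · -- Waiter has 2, 8
        refine WaiterWins.offer 3 9 (by decide) (by decide) (by decide) ?_ ?_ <;>
        refine WaiterWins.offer 5 7 (by decide) (by decide) (by decide) ?_ ?_ <;>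
        exact leafWin (by decide) (by decide) (by decide)
      · -- Waiter has 2, 6
        refine WaiterWins.offer 3 7 (by decide) (by decide) (by decide) ?_ ?_ <;>
        refine WaiterWins.offer 5 9 (by decide) (by decide) (by decide) ?_ ?_ <;>
        exact leafWin (by decide) (by decide) (by decide)

theorem no_six {A : Finset (Fin 10)} (h : A.card = 5) (T : Finset (Fin 10)) (hT : T.card = 6)
    (hsub : T ⊆ A) : False := by
  have := Finset.card_le_card hsub
  omega

theorem sub6 {A : Finset (Fin 10)} {a b c d e f : Fin 10} (ha : a ∈ A) (hb : b ∈ A) (hc : c ∈ A)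
    (hd : d ∈ A) (he : e ∈ A) (hf : f ∈ A) : ({a, b, c, d, e, f} : Finset (Fin 10)) ⊆ A := by
  intro x hx
  simp only [Finset.mem_insert, Finset.mem_singleton] at hx
  rcases hx with rfl | rfl | rfl | rfl | rfl | rfl <;> assumption

/-- A 5-set containing 0 and meeting all four pairs contains no pair. -/
theorem meets_compl {A : Finset (Fin 10)} (h : A.card = 5) (h0 : (0 : Fin 10) ∈ A)
    (hM : Meets A) : Meets Aᶜ := by
  by_contra hcon
  unfold Meets at hM hcon
  simp only [Finset.mem_compl] at hcon
  obtain ⟨m1, m2, m3, m4⟩ := hM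
  by_cases c1 : (2 : Fin 10) ∈ A ∧ (3 : Fin 10) ∈ A
  · rcases m2 with m2 | m2 <;> rcases m3 with m3 | m3 <;> rcases m4 with m4 | m4 <;>
      exact no_six h _ (by decide) (sub6 h0 c1.1 c1.2 m2 m3 m4)
  · by_cases c2 : (4 : Fin 10) ∈ A ∧ (5 : Fin 10) ∈ A
    · rcases m1 with m1 | m1 <;> rcases m3 with m3 | m3 <;> rcases m4 with m4 | m4 <;>
        exact no_six h _ (by decide) (sub6 h0 c2.1 c2.2 m1 m3 m4)
    · by_cases c3 : (6 : Fin 10) ∈ A ∧ (7 : Fin 10) ∈ A
      · rcases m1 with m1 | m1 <;> rcases m2 with m2 | m2 <;> rcases m4 with m4 | m4 <;>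
          exact no_six h _ (by decide) (sub6 h0 c3.1 c3.2 m1 m2 m4)
      · by_cases c4 : (8 : Fin 10) ∈ A ∧ (9 : Fin 10) ∈ A
        · rcases m1 with m1 | m1 <;> rcases m2 with m2 | m2 <;> rcases m3 with m3 | m3 <;>
            exact no_six h _ (by decide) (sub6 h0 c4.1 c4.2 m1 m2 m3)
        · apply hcon
          tauto

/-- No allowed set has an allowed complement. -/
theorem key {A : Finset (Fin 10)} (h : A.card = 5) (h' : Aᶜ.card = 5) (hg : Good A) :
    ¬ Good Aᶜ := by
  rintro (⟨k0, -, kM⟩ | ⟨-, k1, kM⟩)
  · rcases hg with ⟨g0, -, -⟩ | ⟨-, -, gM⟩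
    · exact (Finset.mem_compl.1 k0) g0
    · apply gM
      have := meets_compl h' k0 kM
      rwa [compl_compl] at this
  · rcases hg with ⟨g0, -, gM⟩ | ⟨-, g1, -⟩
    · exact kM (meets_compl h g0 gM)
    · exact (Finset.mem_compl.1 k1) g1

theorem contains_of_six {A : Finset (Fin 10)} (h : 6 ≤ A.card) : ∃ e ∈ Edges, e ⊆ A := by
  by_cases h01 : (0 : Fin 10) ∈ A ∧ (1 : Fin 10) ∈ A
  · have hsub : ({0, 1} : Finset (Fin 10)) ⊆ A := by
      intro x hx
      simp only [Finset.mem_insert, Finset.mem_singleton] at hx
      rcases hx with rfl | rfl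
      · exact h01.1
      · exact h01.2
    obtain ⟨T, hT1, hT2, hT3⟩ := Finset.exists_subsuperset_card_eq (n := 5) hsub
      (by decide) (by omega)
    refine ⟨T, mem_Edges.2 ⟨hT3, ?_⟩, hT2⟩
    have h0 : (0 : Fin 10) ∈ T := hT1 (by decide)
    have h1 : (1 : Fin 10) ∈ T := hT1 (by decide)
    rintro (⟨-, h', -⟩ | ⟨h', -, -⟩)
    · exact h' h1
    · exact h' h0
  · have hcard : 5 ≤ ((A.erase 0).erase 1).card := by
      by_cases h0 : (0 : Fin 10) ∈ A
      · have h1 : (1 : Fin 10) ∉ A := fun h1 => h01 ⟨h0, h1⟩
        have h1' : (1 : Fin 10) ∉ A.erase 0 := fun h => h1 (Finset.mem_of_mem_erase h)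
        rw [Finset.erase_eq_of_notMem h1', Finset.card_erase_of_mem h0]
        omega
      · rw [Finset.erase_eq_of_notMem h0]
        have := Finset.pred_card_le_card_erase (s := A) (a := (1 : Fin 10))
        omega
    obtain ⟨T, hT1, hT2⟩ := Finset.exists_subset_card_eq hcard
    have h0 : (0 : Fin 10) ∉ T := fun h => by
      have := hT1 h
      simp at this
    have h1 : (1 : Fin 10) ∉ T := fun h => by
      have := hT1 h
      simp at this
    refine ⟨T, mem_Edges.2 ⟨hT2, ?_⟩,
      hT1.trans ((Finset.erase_subset _ _).trans (Finset.erase_subset _ _))⟩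
    rintro (⟨h', -, -⟩ | ⟨-, h', -⟩)
    · exact h0 h'
    · exact h1 h'

/-- Every set of vertices or its complement contains an edge. -/
theorem contains (A : Finset (Fin 10)) : (∃ e ∈ Edges, e ⊆ A) ∨ (∃ e ∈ Edges, e ⊆ Aᶜ) := by
  have hc : A.card + Aᶜ.card = 10 := by
    simp
  rcases lt_trichotomy A.card 5 with h | h | h
  · right
    exact contains_of_six (by omega)
  · by_cases hg : Good A
    · right
      refine ⟨Aᶜ, mem_Edges.2 ⟨by omega, ?_⟩, subset_rfl⟩
      exact key h (by omega) hg
    · left
      exact ⟨A, mem_Edges.2 ⟨h, hg⟩, subset_rfl⟩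
  · left
    exact contains_of_six (by omega)

theorem not_twoColourable : ¬ TwoColourable Edges := by
  rintro ⟨c, hc⟩
  rcases contains (Finset.univ.filter (fun v => c v = true)) with ⟨e, he, hsub⟩ | ⟨e, he, hsub⟩
  · obtain ⟨v, hv, hne⟩ := hc e he true
    have := hsub hv
    simp only [Finset.mem_filter, Finset.mem_univ, true_and] at this
    exact hne this
  · obtain ⟨v, hv, hne⟩ := hc e he false
    have := hsub hv
    simp only [Finset.mem_compl, Finset.mem_filter, Finset.mem_univ, true_and,
      Bool.not_eq_true] at this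
    exact hne this

/-- There is a 5-uniform hypergraph on 10 vertices that is not 2-colourable and on which Waiter
wins the Client-Waiter game. -/
theorem result : ∃ E : Finset (Finset (Fin 10)),
    (∀ e ∈ E, e.card = 5) ∧ WaiterWinsGame E ∧ ¬ TwoColourable E :=
  ⟨Edges, fun _ he => (mem_Edges.1 he).1, waiter_wins, not_twoColourable⟩

end Pool.Agent.Results.MP_ca6fba_co.ClientWaiterDisproof
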